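import Pool.Agent.Helper76.ADP.Ind
import Pool.Agent.Helper59.EV.Fdg
import Pool.Agent.Helper87.NJ.St

/-! **[RFR]**: fresh digits in the label of the rows. -/

set_option autoImplicit false

namespace Pool.Agent.Helper93.NJ

open Finset Filter Topology Matrix Pool.Agent.Helper69.RK Pool.Agent.Helper31.EC Pool.Agent.Helper31.EC.Sp
open Pool.Agent.Helper40.EL Pool.Agent.Helper89.LX Pool.Agent.Helper84.MT
open Pool.Agent.Helper76.ADP (RowsF rsp rpj rfr rmx rfr_I)

noncomputable section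

variable {S T : Sp}

/-- typical events in extensions -/
theorem typ_pl (p : Pj T S) {A : ∀ k, (S.F k).Ω → Prop} (h : Typ A) : Typ (S := T) fun k ω => A k (p.π k ω) := by
  have h1 : ∀ k, (T.F k).pb (fun ω => ¬ A k (p.π k ω)) = (S.F k).pb (fun ω => ¬ A k ω) := by
    intro k
    have h2 := Pool.Agent.Helper59.EV.sum_pull (p.fp k) fun ω => res (fun _ => (1 : ℝ)) (fun ω => ¬ A k ω) ω
    have e1 : ∀ (F : FSp) (B : F.Ω → Prop), F.pb B = ∑ ω, F.μ ω * res (fun _ => (1 : ℝ)) B ω := by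
      intro F B
      show ∑ ω, res F.μ B ω = _
      refine Finset.sum_congr rfl fun ω _ => ?_
      by_cases hB : B ω
      · rw [res_pos _ _ _ hB, res_pos _ _ _ hB, mul_one]
      · rw [res_neg _ _ _ hB, res_neg _ _ _ hB, mul_zero]
    rw [e1, e1, ← h2]
    rfl
  have h3 : Tendsto (fun k => (S.F k).pb fun ω => ¬ A k ω) UF (𝓝 0) := h
  show Tendsto (fun k => (T.F k).pb fun ω => ¬ A k (p.π k ω)) UF (𝓝 0)
  exact h3.congr fun k => (h1 k).symm

/-- the support of an extension -/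
theorem supp_pl (p : Pj T S) (k : ℕ) (ω : (T.F k).Ω) (h : (T.F k).μ ω ≠ 0) : (S.F k).μ (p.π k ω) ≠ 0 := by
  rw [← p.law k]
  exact supp_push (p.π k) (T.F k).μ (T.F k).nn ω h

/-- ROW [RFR] -/
theorem row_rfr : Pool.Agent.Helper87.NJ.ROW_RFR := by
  intro N v q D n S V Q Ex f w x
  have hs := supp_pl (rpj S n)
  refine ⟨?_, ?_, ?_, ?_, ?_, ?_, ?_, ?_, ?_⟩
  · filter_upwards [x.w01] with k hk ω hω using hk _ (hs k ω hω)
  · filter_upwards [x.deg] with k hk ω hω using hk _ (hs k ω hω)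
  · filter_upwards [x.msE] with k hk ω ω' hω hω' hZ hV using hk _ _ (hs k ω hω) (hs k ω' hω') hZ hV.1
  · filter_upwards [x.msf] with k hk ω ω' hω hω' hZ hV using hk _ _ (hs k ω hω) (hs k ω' hω') hZ hV.1
  · filter_upwards [x.msw] with k hk ω ω' hω hω' hZ hV using hk _ _ (hs k ω hω) (hs k ω' hω') hZ hV.1
  · exact fun η hη => typ_pl (rpj S n) (x.bd η hη)
  · exact fun η hη => typ_pl (rpj S n) (x.der η hη)
  · exact fun η hη => typ_pl (rpj S n) (x.det η hη)
  · intro ε hε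
    filter_upwards [x.fu ε hε] with k hk
    have h1 : ((rsp S n).F k).e (Setoid.ker (((rpj S n).vv Q).cellv 1 k)) (((rpj S n).pb V k ⊓ rfr S n k) ⊓ ((rsp S n).F k).Z) =
        (S.F k).e (Setoid.ker (Q.cellv 1 k)) (V k ⊓ (S.F k).Z) := by
      rw [← h_fc, ← h_fc]
      have e1 : fc (F := (rsp S n).F k) ((rpj S n).pb V k ⊓ rfr S n k) =
          ((rpj S n).fp k).map (fc (V k)) ⊔ fc (rfr S n k) := by
        rw [fc_inf]
        rfl
      have e2 : fc (F := (rsp S n).F k) (Setoid.ker (((rpj S n).vv Q).cellv 1 k)) =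
          ((rpj S n).fp k).map (fc (Setoid.ker (Q.cellv 1 k))) := rfl
      have h2 := rfr_I (q := n) k (fc (Setoid.ker (Q.cellv 1 k))) (fc (V k))
      rw [I_eq'] at h2
      rw [e1, e2, sup_comm, ← sub_eq_zero.mp h2, FPj.h_map]
    have h2 : ∑ ω, ((rsp S n).F k).μ ω * ∑ j, w k ((rpj S n).π k ω) j = ∑ ω, (S.F k).μ ω * ∑ j, w k ω j :=
      Pool.Agent.Helper59.EV.sum_pull ((rpj S n).fp k) fun ω => ∑ j, w k ω j
    rw [h1, h2]
    exact hk

end

end Pool.Agent.Helper93.NJ
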